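import Pool.Agent.W524.RY.Fin
import Pool.Agent.TH942.ES.NF

/-! The asymptotic formula for the directional means of a general system of primes. -/

set_option autoImplicit false

namespace Pool.Agent.Y697.DL

open MeasureTheory Filter Topology Set
open Pool.Agent.W189.ML (grow HS J V rho SData ser exp_gap grow_ge grow_zero norm_J_le J_hasSum J_const_mul)
open Pool.Agent.W524.RY (dir dir_re dir_im dir_ne dir_mul_re dir_mul_real_re main_abs J_cexp inv_gamma_le)
open Pool.Agent.TH942.ES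

variable {X : Type} {d : ℕ} {N : X → ℕ} {α : X → Fin d → ℂ} {Ψ : ℂ → ℂ}

/-- an entire continuation of the Euler product -/
structure CP (N : X → ℕ) (α : X → Fin d → ℂ) (Ψ : ℂ → ℂ) : Prop where
  ent : Differentiable ℂ Ψ
  prod : ∀ w : ℂ, 1 / 2 < w.re → HasProd (fun v => ∏ i, (1 - zv N α v i * xv N v w)⁻¹) (Ψ w)

/-- the frequencies -/
noncomputable def lam (N : X → ℕ) (v : X) : ℝ := Real.log (N v)

/-- the mean in the direction `1 + iτ` -/
noncomputable def cmean (N : X → ℕ) (α : X → Fin d → ℂ) (τ T : ℝ) : ℂ :=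
  ∑' v : X, (cv N α v : ℂ) * (Complex.Gamma (1 + dir τ * (Real.log (N v) / T)))⁻¹

variable (E : Sys N α)
include E

theorem sd : SData (lam N) (cv N α) (fun _ => 0) where
  lam_pos := fun v => (E.logN v).le
  sum := by
    refine Summable.of_nonneg_of_le (fun v => by positivity) (fun v => ?_)
      ((E.sum (5 / 2) (by norm_num)).mul_left (4 * (d : ℝ)))
    have h1 : Real.exp (-(2 * lam N v)) = (N v : ℝ) ^ (-(2 : ℝ)) := by
      unfold lam
      rw [Real.rpow_def_of_pos (E.Npos v)]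
      congr 1
      ring
    rw [h1]
    calc |cv N α v| * (N v : ℝ) ^ (-(2 : ℝ)) ≤
          (4 * d * (N v : ℝ) ^ (-(1 / 2 : ℝ))) * (N v : ℝ) ^ (-(2 : ℝ)) :=
          mul_le_mul_of_nonneg_right (E.cv_abs v) (by positivity)
      _ = _ := by
        rw [mul_assoc, ← Real.rpow_add (E.Npos v)]
        congr 2
        norm_num
  Gd := fun w _ => by fun_prop
  Gb := ⟨0, fun w _ _ => by simp⟩
  G2 := by simp

theorem ne_zero (H : CP N α Ψ) {w : ℂ} (hw : 1 / 2 < w.re) : Ψ w ≠ 0 := by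
  rw [← E.exp_eq hw (H.prod w hw)]
  exact Complex.exp_ne_zero _

/-- the last zero on a ray -/
theorem exists_last (H : CP N α Ψ) (τ : ℝ) : ∃ x₀ : ℝ, 0 ≤ x₀ ∧ x₀ ≤ 1 / 2 ∧
    (∀ x : ℝ, x₀ < x → Ψ (dir τ * x) ≠ 0) ∧ (x₀ = 0 ∨ Ψ (dir τ * x₀) = 0) := by
  set Z : Set ℝ := {x | x ∈ Icc (0 : ℝ) (1 / 2) ∧ Ψ (dir τ * x) = 0} with hZ
  have hbig : ∀ x : ℝ, 1 / 2 < x → Ψ (dir τ * x) ≠ 0 := by
    intro x hx
    apply ne_zero E H
    rw [dir_mul_real_re]
    exact hx
  have hcZ : IsCompact Z := by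
    have h1 : Continuous fun x : ℝ => Ψ (dir τ * x) := H.ent.continuous.comp (by fun_prop)
    have h2 : IsClosed {x : ℝ | Ψ (dir τ * x) = 0} := isClosed_eq h1 continuous_const
    exact isCompact_Icc.inter_right h2
  by_cases hne : Z.Nonempty
  · have h1 := hcZ.sSup_mem hne
    refine ⟨sSup Z, h1.1.1, h1.1.2, fun x hx h => ?_, Or.inr h1.2⟩
    by_cases h2 : 1 / 2 < x
    · exact hbig x h2 h
    · push Not at h2
      have h3 : x ∈ Z := ⟨⟨by linarith [h1.1.1], h2⟩, h⟩
      have := le_csSup hcZ.bddAbove h3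
      linarith
  · refine ⟨0, le_rfl, by norm_num, fun x hx h => ?_, Or.inl rfl⟩
    by_cases h2 : 1 / 2 < x
    · exact hbig x h2 h
    · push Not at h2
      exact hne ⟨x, ⟨hx.le, h2⟩, h⟩

omit E in
/-- the quotient of `Ψ (dir τ w)` by the power of `w - x₀` -/
theorem exists_Q (H : CP N α Ψ) (τ : ℝ) {x₀ : ℝ} (h0 : 0 ≤ x₀) {m : ℕ}
    (hm : analyticOrderAt Ψ (dir τ * x₀) = m)
    (hnz : ∀ x : ℝ, x₀ < x → Ψ (dir τ * x) ≠ 0) :
    ∃ Q : ℂ → ℂ, (∀ w, AnalyticAt ℂ Q w) ∧
      (∀ w, w ≠ (x₀ : ℂ) → Ψ (dir τ * w) = (w - x₀) ^ m * Q w) ∧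
      ∃ x₁ : ℝ, 0 ≤ x₁ ∧ x₁ ≤ x₀ ∧ (0 < x₀ → x₁ < x₀) ∧ ∀ x ∈ Icc x₁ 3, Q (x : ℂ) ≠ 0 := by
  have hFa : AnalyticAt ℂ Ψ (dir τ * x₀) := H.ent.analyticAt _
  obtain ⟨g, hg, hg0, he⟩ := (hFa.analyticOrderAt_eq_natCast).mp hm
  set P : ℂ → ℂ := fun w => Ψ (dir τ * w) with hP
  have hPd : Differentiable ℂ P := H.ent.comp (by fun_prop)
  set G : ℂ → ℂ := fun w => (dir τ) ^ m * g (dir τ * w) with hG
  have hGa : AnalyticAt ℂ G x₀ := by
    refine analyticAt_const.mul ?_
    refine AnalyticAt.fun_comp (g := g) (f := fun w : ℂ => dir τ * w) hg ?_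
    fun_prop
  have hG0 : G x₀ ≠ 0 := mul_ne_zero (pow_ne_zero _ (dir_ne τ)) hg0
  have hGe : ∀ᶠ w in 𝓝 (x₀ : ℂ), P w = (w - x₀) ^ m * G w := by
    have h2 : Tendsto (fun w : ℂ => dir τ * w) (𝓝 (x₀ : ℂ)) (𝓝 (dir τ * x₀)) := by
      have : Continuous fun w : ℂ => dir τ * w := by fun_prop
      exact this.tendsto (x₀ : ℂ)
    filter_upwards [h2.eventually he] with w hw
    rw [hP]
    simp only
    rw [hw, smul_eq_mul]
    rw [hG]
    simp only
    have e1 : (dir τ * w - dir τ * x₀) = dir τ * (w - x₀) := by ring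
    rw [e1, mul_pow]
    ring
  set Q : ℂ → ℂ := fun w => if w = (x₀ : ℂ) then G x₀ else P w / (w - x₀) ^ m with hQ
  have hQ0 : Q x₀ = G x₀ := by rw [hQ]; simp
  have hQe : Q =ᶠ[𝓝 (x₀ : ℂ)] G := by
    filter_upwards [hGe] with w hw
    rw [hQ]
    simp only
    split_ifs with h
    · rw [h]
    · rw [hw]
      have : w - x₀ ≠ 0 := sub_ne_zero.2 h
      field_simp
  have hQa : ∀ w, AnalyticAt ℂ Q w := by
    intro w
    by_cases h : w = (x₀ : ℂ)
    · rw [h]
      exact hGa.congr hQe.symm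
    · have h2 : Q =ᶠ[𝓝 w] fun w => P w / (w - x₀) ^ m := by
        filter_upwards [isOpen_ne.mem_nhds h] with v hv
        rw [hQ]
        simp only
        rw [if_neg hv]
      refine AnalyticAt.congr ?_ h2.symm
      refine AnalyticAt.div (hPd.analyticAt _) (by fun_prop) ?_
      exact pow_ne_zero _ (sub_ne_zero.2 h)
  have hQf : ∀ w, w ≠ (x₀ : ℂ) → P w = (w - x₀) ^ m * Q w := by
    intro w hw
    rw [hQ]
    simp only
    rw [if_neg hw]
    have : w - x₀ ≠ 0 := sub_ne_zero.2 hw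
    field_simp
  refine ⟨Q, hQa, hQf, ?_⟩
  have hcontre : Continuous fun x : ℝ => Q (x : ℂ) := by
    have h2 : Continuous Q := continuous_iff_continuousAt.2 fun w => (hQa w).continuousAt
    exact h2.comp Complex.continuous_ofReal
  have hnv : ∀ x : ℝ, x₀ ≤ x → Q (x : ℂ) ≠ 0 := by
    intro x hx
    rcases hx.lt_or_eq with h | h
    · intro h2
      have hx' : (x : ℂ) ≠ (x₀ : ℂ) := by exact_mod_cast h.ne'
      have h3 := hQf x hx'
      rw [h2, mul_zero, hP] at h3
      exact hnz x h h3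
    · rw [← h, hQ0]
      exact hG0
  rcases h0.lt_or_eq with h | h
  · have h2 : ∀ᶠ x : ℝ in 𝓝 x₀, Q (x : ℂ) ≠ 0 :=
      hcontre.continuousAt.eventually_ne (hnv x₀ le_rfl)
    obtain ⟨ε, hε, h3⟩ := Metric.eventually_nhds_iff.1 h2
    refine ⟨max 0 (x₀ - ε / 2), le_max_left _ _, max_le h0 (by linarith), fun _ =>
      max_lt h (by linarith), fun x hx => ?_⟩
    by_cases hx0 : x₀ ≤ x
    · exact hnv x hx0
    · push Not at hx0
      refine h3 ?_
      have := (le_max_right 0 (x₀ - ε / 2)).trans hx.1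
      rw [Real.dist_eq, abs_lt]
      constructor <;> linarith
  · exact ⟨0, le_rfl, h0, fun h2 => absurd h2 (by rw [← h]; exact lt_irrefl 0), fun x hx =>
      hnv x (by rw [← h]; exact hx.1)⟩

/-- the mean as a contour integral -/
theorem cmean_eq (τ : ℝ) {T : ℝ} (hT : 1 ≤ T) (hτ : Real.pi * |τ| ≤ T) :
    J (3 * T) (fun z => ser (lam N) (cv N α) (dir τ * (z / T))) = cmean N α τ T := by
  have D := sd E
  have := E.cnt
  have hT0 : (0 : ℝ) < T := by linarith
  have hre : ∀ z ∈ HS (3 * T), 2 ≤ (dir τ * (z / T)).re := by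
    intro z hz
    have e1 : (z / T).re = z.re / T := by simp
    have e2 : (z / T).im = z.im / T := by simp
    rw [dir_mul_re, e1, e2]
    have h1 : 3 ≤ z.re / T := by
      rw [le_div_iff₀ hT0]
      exact hz.1
    have h2 : τ * (z.im / T) ≤ 1 := by
      rw [mul_div_assoc', div_le_one hT0]
      have h3 : τ * z.im ≤ |τ| * |z.im| := by rw [← abs_mul]; exact le_abs_self _
      have h4 : |τ| * |z.im| ≤ |τ| * Real.pi := mul_le_mul_of_nonneg_left hz.2 (abs_nonneg _)
      linarith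
    linarith
  have h1 := J_hasSum (a := 3 * T) (by positivity)
    (F := fun (v : X) z => (cv N α v : ℂ) * Complex.exp (-(dir τ * (z / T) * (lam N v : ℝ)))) D.sum
    (fun v => ⟨by fun_prop, |cv N α v| * Real.exp (-(2 * lam N v)), 0, by positivity, le_rfl,
      fun z hz => by
        have := D.term_le (hre z hz) v
        simpa using this⟩) fun v z hz => D.term_le (hre z hz) v
  have h2 : ∀ v : X, J (3 * T) (fun z => (cv N α v : ℂ) *
      Complex.exp (-(dir τ * (z / T) * (lam N v : ℝ)))) =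
      (cv N α v : ℂ) * (Complex.Gamma (1 + dir τ * (Real.log (N v) / T)))⁻¹ := by
    intro v
    have e3 : (fun z : ℂ => (cv N α v : ℂ) * Complex.exp (-(dir τ * (z / T) * (lam N v : ℝ)))) =
        fun z => (cv N α v : ℂ) * Complex.exp (-(z * (dir τ * (Real.log (N v) / T)))) := by
      funext z
      unfold lam
      congr 2
      ring
    rw [e3, J_const_mul, J_cexp]
  simp only [h2] at h1
  exact h1.tsum_eq.symm

/-- **The asymptotic formula for the mean.** -/
theorem cmean_asymp (H : CP N α Ψ) (τ : ℝ) {x₀ : ℝ} (h0 : 0 ≤ x₀) (h1 : x₀ ≤ 1) {m : ℕ}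
    (hm : analyticOrderAt Ψ (dir τ * x₀) = m)
    (hnz : ∀ x : ℝ, x₀ < x → Ψ (dir τ * x) ≠ 0) :
    ∃ x₁ : ℝ, 0 ≤ x₁ ∧ x₁ ≤ x₀ ∧ (0 < x₀ → x₁ < x₀) ∧ ∃ C T₀ : ℝ, 0 ≤ C ∧ 1 ≤ T₀ ∧
      ∀ T : ℝ, T₀ ≤ T →
      ‖cmean N α τ T - m * ((Real.log T + grow (x₀ * T) : ℝ) : ℂ)‖ ≤
        C * Real.exp (Real.exp (x₁ * T)) := by
  obtain ⟨Q, hQa, hQf, x₁, hx1, hx2, hx3, hx4⟩ := exists_Q H τ h0 hm hnz
  have D := sd E
  set κ : ℝ := 1 / (2 * (1 + |τ|)) with hκ
  have hτ0 := abs_nonneg τ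
  have hκ0 : 0 < κ := by positivity
  have hκτ : |τ| * κ ≤ 1 / 2 := by
    rw [hκ, mul_one_div, div_le_iff₀ (by positivity)]
    linarith
  obtain ⟨CG, hCG⟩ := E.GG_sector (K := 4 * (1 + |τ|)) (by positivity)
  have h3x : (3 : ℂ) ≠ (x₀ : ℂ) := by
    have : (3 : ℝ) ≠ x₀ := by linarith
    exact_mod_cast this
  -- the geometry of the sector
  have hsec : ∀ ζ : ℂ, 0 < ζ.re → |ζ.im| ≤ κ * ζ.re →
      0 < (dir τ * ζ).re ∧ ‖dir τ * ζ‖ ≤ 4 * (1 + |τ|) * (dir τ * ζ).re := by
    intro ζ hζ hζi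
    have e1 : τ * ζ.im ≤ 1 / 2 * ζ.re := by
      calc τ * ζ.im ≤ |τ| * |ζ.im| := by rw [← abs_mul]; exact le_abs_self _
        _ ≤ |τ| * (κ * ζ.re) := mul_le_mul_of_nonneg_left hζi hτ0
        _ = (|τ| * κ) * ζ.re := by ring
        _ ≤ 1 / 2 * ζ.re := mul_le_mul_of_nonneg_right hκτ hζ.le
    have e2 : 1 / 2 * ζ.re ≤ (dir τ * ζ).re := by
      rw [dir_mul_re]; linarith
    refine ⟨by linarith, ?_⟩
    have e3 : ‖dir τ‖ ≤ 1 + |τ| := by
      have := Complex.norm_le_abs_re_add_abs_im (dir τ)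
      simpa using this
    have e4 : ‖ζ‖ ≤ 2 * ζ.re := by
      have h5 := Complex.norm_le_abs_re_add_abs_im ζ
      rw [abs_of_pos hζ] at h5
      have h6 : κ ≤ 1 := by
        rw [hκ, div_le_one (by positivity)]
        linarith
      have : κ * ζ.re ≤ 1 * ζ.re := mul_le_mul_of_nonneg_right h6 hζ.le
      linarith
    rw [norm_mul]
    calc ‖dir τ‖ * ‖ζ‖ ≤ (1 + |τ|) * (2 * ζ.re) := by gcongr
      _ = 4 * (1 + |τ|) * (1 / 2 * ζ.re) := by ring
      _ ≤ _ := by gcongr
  have hstrip : ∀ ζ : ℂ, 3 ≤ ζ.re → |ζ.im| ≤ κ → 2 ≤ (dir τ * ζ).re := by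
    intro ζ hζ hζi
    rw [dir_mul_re]
    have : τ * ζ.im ≤ 1 / 2 := by
      calc τ * ζ.im ≤ |τ| * |ζ.im| := by rw [← abs_mul]; exact le_abs_self _
        _ ≤ |τ| * κ := mul_le_mul_of_nonneg_left hζi hτ0
        _ ≤ 1 / 2 := hκτ
    linarith
  have hscont : ContinuousOn (fun ζ => ser (lam N) (cv N α) (dir τ * ζ))
      {ζ | 3 ≤ ζ.re ∧ |ζ.im| ≤ κ} :=
    D.ser_cont.comp (by fun_prop) fun ζ hζ => hstrip ζ hζ.1 hζ.2
  have hscont3 : ContinuousAt (fun ζ => ser (lam N) (cv N α) (dir τ * ζ)) 3 := by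
    have h5 : ContinuousAt (ser (lam N) (cv N α)) (dir τ * 3) := by
      refine D.ser_cont.continuousAt ?_
      have h6 : {w : ℂ | 2 < w.re} ∈ 𝓝 (dir τ * 3) := by
        refine (isOpen_lt continuous_const Complex.continuous_re).mem_nhds ?_
        have : (dir τ * 3).re = 3 := by
          simp
        show (2 : ℝ) < (dir τ * 3).re
        rw [this]
        norm_num
      filter_upwards [h6] with w hw
      exact le_of_lt hw
    exact ContinuousAt.comp (g := ser (lam N) (cv N α))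
      (f := fun ζ : ℂ => dir τ * ζ) h5 (by fun_prop)
  obtain ⟨C, T₀, hC⟩ := main_abs (S := fun ζ => ser (lam N) (cv N α) (dir τ * ζ))
    (G := fun ζ => GG N α (dir τ * ζ)) (Q := Q) (κ := κ) (CG := CG)
    (CS := ∑' v : X, |cv N α v| * Real.exp (-(2 * lam N v)))
    hκ0 hx1 hx2 h1 (m : ℤ)
    (fun ζ h2 h3 => DifferentiableAt.comp (g := GG N α) (f := fun ζ : ℂ => dir τ * ζ) ζ
      (E.GG_diff (hsec ζ h2 h3).1) (by fun_prop))
    (fun ζ h2 h3 => hCG _ (hsec ζ h2 h3).1 (hsec ζ h2 h3).2)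
    hscont (fun ζ h2 h3 => D.ser_le (hstrip ζ h2 h3)) hscont3 (fun x _ => hQa _) hx4 (by
      have e1 : {w : ℂ | 1 < (dir τ * w).re} ∈ 𝓝 (3 : ℂ) := by
        refine (isOpen_lt continuous_const (Complex.continuous_re.comp (by fun_prop))).mem_nhds ?_
        have : (dir τ * 3).re = 3 := by
          simp
        show (1 : ℝ) < (dir τ * 3).re
        rw [this]
        norm_num
      filter_upwards [e1, isOpen_ne.mem_nhds h3x] with w hw hw2
      have hw' : (1 : ℝ) / 2 < (dir τ * w).re := by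
        have : (1 : ℝ) < (dir τ * w).re := hw
        linarith
      have e2 := E.exp_eq hw' (H.prod _ hw')
      have e3 : ser (lam N) (cv N α) (dir τ * w) =
          ∑' v, (cv N α v : ℂ) * xv N v (dir τ * w) := rfl
      rw [e3, e2, hQf w hw2, zpow_natCast])
  refine ⟨x₁, hx1, hx2, hx3, |C|, max T₀ (max 1 (Real.pi * |τ|)), abs_nonneg _,
    (le_max_left _ _).trans (le_max_right _ _), fun T hT => ?_⟩
  have hT1 : 1 ≤ T := ((le_max_left _ _).trans (le_max_right _ _)).trans hT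
  have hTτ : Real.pi * |τ| ≤ T := ((le_max_right _ _).trans (le_max_right _ _)).trans hT
  have h3 := hC T ((le_max_left _ _).trans hT)
  rw [cmean_eq E τ hT1 hTτ] at h3
  refine (le_of_eq ?_).trans (h3.trans (mul_le_mul_of_nonneg_right (le_abs_self C)
    (Real.exp_pos _).le))
  norm_cast

/-- absolute convergence -/
theorem cmean_summable (τ : ℝ) {T : ℝ} (hT : 0 < T) :
    Summable fun v : X => ‖(cv N α v : ℂ) * (Complex.Gamma (1 + dir τ * (Real.log (N v) / T)))⁻¹‖ := by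
  refine Summable.of_nonneg_of_le (fun v => norm_nonneg _) (fun v => ?_)
    ((E.sum (5 / 2) (by norm_num)).mul_left
      (4 * (d : ℝ) * (Real.exp (Real.exp (2 * T + Real.pi * |τ|)) + 1)))
  have hv : 0 ≤ Real.log (N v) / T := div_nonneg (E.logN v).le hT.le
  have h2 := inv_gamma_le τ (c := 2 * T + Real.pi * |τ|) (by positivity) hv
  have h3 : Real.exp (-((2 * T + Real.pi * |τ| - Real.pi * |τ|) * (Real.log (N v) / T))) =
      (N v : ℝ) ^ (-2 : ℝ) := by
    rw [Real.rpow_def_of_pos (E.Npos v)]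
    congr 1
    field_simp
    ring
  rw [h3] at h2
  rw [norm_mul, Complex.norm_real, Real.norm_eq_abs]
  rw [Complex.ofReal_div] at h2
  have hcv := E.cv_abs v
  calc |cv N α v| * _ ≤ (4 * d * (N v : ℝ) ^ (-(1 / 2 : ℝ))) *
        ((Real.exp (Real.exp (2 * T + Real.pi * |τ|)) + 1) * (N v : ℝ) ^ (-2 : ℝ)) :=
        mul_le_mul hcv h2 (norm_nonneg _) (by positivity)
    _ = 4 * (d : ℝ) * (Real.exp (Real.exp (2 * T + Real.pi * |τ|)) + 1) *
        ((N v : ℝ) ^ (-(1 / 2 : ℝ)) * (N v : ℝ) ^ (-2 : ℝ)) := by ring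
    _ = _ := by
      rw [← Real.rpow_add (E.Npos v)]
      congr 2
      norm_num

/-- directions without zeros -/
theorem free (H : CP N α Ψ) (τ : ℝ) {m : ℕ} (hm : analyticOrderAt Ψ 0 = m)
    (hnz : ∀ x : ℝ, 0 < x → Ψ (dir τ * x) ≠ 0) :
    ∃ M : ℝ, ∀ᶠ Y : ℝ in atTop,
      ‖cmean N α τ (Real.log Y) - m * (Real.log (Real.log Y) : ℂ)‖ ≤ M := by
  obtain ⟨x₁, hx1, hx2, -, C, T₀, hC0, hT0, hC⟩ := cmean_asymp E H τ le_rfl zero_le_one (m := m)
    (by rw [Complex.ofReal_zero, mul_zero]; exact hm) hnz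
  have hx10 : x₁ = 0 := le_antisymm hx2 hx1
  refine ⟨C * Real.exp 1, ?_⟩
  filter_upwards [Real.tendsto_log_atTop.eventually (eventually_ge_atTop T₀)] with Y h
  have h2 := hC _ h
  rw [hx10, zero_mul, grow_zero, add_zero, Real.exp_zero] at h2
  exact h2

/-- directions with zeros -/
theorem blocked (H : CP N α Ψ) (τ : ℝ) {x₀ : ℝ} (h0 : 0 < x₀) (h1 : x₀ ≤ 1) {m : ℕ}
    (hm : analyticOrderAt Ψ (dir τ * x₀) = m) (hz : Ψ (dir τ * x₀) = 0)
    (hnz : ∀ x : ℝ, x₀ < x → Ψ (dir τ * x) ≠ 0) :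
    Tendsto (fun Y : ℝ => cmean N α τ (Real.log Y) / grow (x₀ * Real.log Y)) atTop (𝓝 m) ∧
    ∀ c < x₀, ∀ᶠ Y : ℝ in atTop, Real.exp (Y ^ c) ≤ (cmean N α τ (Real.log Y)).re := by
  obtain ⟨x₁, hx1, hx2, hx3, C, T₀, hC0, hT₀, hC'⟩ := cmean_asymp E H τ h0.le h1 hm hnz
  have hx3' := hx3 h0
  have hm1 : 1 ≤ m := by
    rw [Nat.one_le_iff_ne_zero]
    intro h
    rw [h] at hm
    have : AnalyticAt ℂ Ψ (dir τ * x₀) := H.ent.analyticAt _
    exact (this.analyticOrderAt_eq_zero.1 (by simpa using hm)) hz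
  have hm1' : (1 : ℝ) ≤ m := by exact_mod_cast hm1
  have hlog : Tendsto Real.log atTop atTop := Real.tendsto_log_atTop
  have hC : ∀ᶠ Y : ℝ in atTop,
      ‖cmean N α τ (Real.log Y) -
        m * ((Real.log (Real.log Y) + grow (x₀ * Real.log Y) : ℝ) : ℂ)‖ ≤
        C * Real.exp (Real.exp (x₁ * Real.log Y)) := by
    filter_upwards [hlog.eventually (eventually_ge_atTop T₀)] with Y h
    exact hC' _ h
  -- quantitative closeness
  have key : ∀ᶠ Y : ℝ in atTop, ‖cmean N α τ (Real.log Y) - ((m * grow (x₀ * Real.log Y) : ℝ) : ℂ)‖ ≤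
      (C + m) * Real.exp (-Real.log Y) * grow (x₀ * Real.log Y) := by
    have e1 := hlog.eventually (exp_gap hx1 hx3')
    have e2 := hlog.eventually (eventually_ge_atTop 1)
    have e3 := hlog.eventually (eventually_ge_atTop (5 / x₀))
    filter_upwards [e1, e2, e3, hC] with Y h2 h3 h4 h7
    set T := Real.log Y with hT
    have hT1 : 1 ≤ T := h3
    have h5 : 5 ≤ x₀ * T := by
      rw [div_le_iff₀ h0] at h4
      linarith
    have h6 := grow_ge h5
    set g := grow (x₀ * T) with hg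
    have hlogT : Real.log T ≤ T := (Real.log_le_sub_one_of_pos (by linarith)).trans (by linarith)
    have hlogT0 : 0 ≤ Real.log T := Real.log_nonneg hT1
    set ee := Real.exp (Real.exp (x₁ * T)) with hee
    have h1e : 1 ≤ ee := Real.one_le_exp (Real.exp_pos _).le
    have h8 : T * ee ≤ Real.exp (-T) * g := by
      have h9 : T ≤ Real.exp T := by
        have := Real.add_one_le_exp T
        linarith
      calc T * ee ≤ Real.exp T * ee := by gcongr
        _ = Real.exp (-T) * Real.exp (Real.exp (x₁ * T) + 2 * T) := by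
          rw [hee, ← Real.exp_add, ← Real.exp_add]
          congr 1
          ring
        _ ≤ Real.exp (-T) * Real.exp (Real.exp (x₀ * T - 2)) := by
          gcongr
          linarith
        _ ≤ _ := by gcongr
    have h10 : ‖cmean N α τ T - ((m * g : ℝ) : ℂ)‖ ≤ C * ee + m * Real.log T := by
      have h11 : cmean N α τ T - ((m * g : ℝ) : ℂ) =
          (cmean N α τ T - m * ((Real.log T + g : ℝ) : ℂ)) + ((m * Real.log T : ℝ) : ℂ) := by
        push_cast
        ring
      rw [h11]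
      refine (norm_add_le _ _).trans (add_le_add h7 ?_)
      rw [Complex.norm_real, Real.norm_eq_abs, abs_of_nonneg (by positivity)]
    refine h10.trans ?_
    have h12 : C * ee ≤ C * (T * ee) := by
      gcongr
      nlinarith
    have h13 : (m : ℝ) * Real.log T ≤ m * (T * ee) := by
      gcongr
      nlinarith
    calc C * ee + m * Real.log T ≤ (C + m) * (T * ee) := by linarith
      _ ≤ (C + m) * (Real.exp (-T) * g) := by gcongr
      _ = _ := by ring
  have hgpos : ∀ᶠ Y : ℝ in atTop, Real.exp (Real.exp (x₀ * Real.log Y - 2)) ≤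
      grow (x₀ * Real.log Y) := by
    have e3 := hlog.eventually (eventually_ge_atTop (5 / x₀))
    filter_upwards [e3] with Y h4
    refine grow_ge ?_
    rw [div_le_iff₀ h0] at h4
    linarith
  constructor
  · rw [tendsto_iff_norm_sub_tendsto_zero]
    refine squeeze_zero' (g := fun Y => (C + m) * Real.exp (-Real.log Y))
      (Eventually.of_forall fun Y => norm_nonneg _) ?_ ?_
    · filter_upwards [key, hgpos] with Y h2 h3
      have hg : 0 < grow (x₀ * Real.log Y) := (Real.exp_pos _).trans_le h3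
      have hgc : (grow (x₀ * Real.log Y) : ℂ) ≠ 0 := by exact_mod_cast hg.ne'
      have h4 : cmean N α τ (Real.log Y) / grow (x₀ * Real.log Y) - m =
          (cmean N α τ (Real.log Y) - ((m * grow (x₀ * Real.log Y) : ℝ) : ℂ)) /
            grow (x₀ * Real.log Y) := by
        push_cast
        field_simp
      rw [h4, norm_div, Complex.norm_real, Real.norm_eq_abs, abs_of_pos hg, div_le_iff₀ hg]
      exact h2
    · have h5 : Tendsto (fun Y : ℝ => Real.exp (-Real.log Y)) atTop (𝓝 0) :=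
        Real.tendsto_exp_neg_atTop_nhds_zero.comp hlog
      have := h5.const_mul (C + m)
      simpa using this
  · intro c hc
    set c' := max c 0 with hc'
    have hc0 : 0 ≤ c' := le_max_right _ _
    have hc1 : c' < x₀ := max_lt hc h0
    have e1 := hlog.eventually (exp_gap hc0 hc1)
    have e4 : ∀ᶠ Y : ℝ in atTop, (C + m) * Real.exp (-Real.log Y) ≤ 1 / 2 := by
      have h5 : Tendsto (fun Y : ℝ => (C + m) * Real.exp (-Real.log Y)) atTop (𝓝 ((C + m) * 0)) :=
        (Real.tendsto_exp_neg_atTop_nhds_zero.comp hlog).const_mul (C + m)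
      rw [mul_zero] at h5
      exact h5.eventually (eventually_le_nhds (by norm_num))
    filter_upwards [key, hgpos, e1, e4, eventually_ge_atTop 1, hlog.eventually (eventually_ge_atTop 1)]
      with Y h2 h3 h4 h5 h6 h7
    set T := Real.log Y with hT
    set g := grow (x₀ * T) with hg
    have hg0 : 0 < g := (Real.exp_pos _).trans_le h3
    have h8 : Y ^ c ≤ Real.exp (c' * T) := by
      calc Y ^ c ≤ Y ^ c' := Real.rpow_le_rpow_of_exponent_le h6 (le_max_left _ _)
        _ = Real.exp (c' * T) := by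
          rw [Real.rpow_def_of_pos (by linarith)]
          congr 1
          ring
    have h9 : g / 2 ≤ (cmean N α τ T).re := by
      have h10 : -((C + m) * Real.exp (-T) * g) ≤ (cmean N α τ T).re - m * g := by
        have := (abs_le.mp ((Complex.abs_re_le_norm _).trans h2)).1
        rwa [Complex.sub_re, Complex.ofReal_re] at this
      have h11 : (C + m) * Real.exp (-T) * g ≤ 1 / 2 * g := by gcongr
      have h12 : g ≤ m * g := le_mul_of_one_le_left hg0.le hm1'
      linarith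
    have h10 : 2 * Real.exp (Y ^ c) ≤ g := by
      have h11 : (2 : ℝ) ≤ Real.exp 1 := by
        have := Real.add_one_le_exp (1 : ℝ)
        linarith
      calc 2 * Real.exp (Y ^ c) ≤ Real.exp 1 * Real.exp (Real.exp (c' * T)) := by gcongr
        _ = Real.exp (1 + Real.exp (c' * T)) := by rw [Real.exp_add]
        _ ≤ Real.exp (Real.exp (x₀ * T - 2)) := by
          gcongr
          linarith
        _ ≤ g := h3
    linarith

/-- only finitely many directions with bounded slope are blocked -/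
theorem blocked_finite (H : CP N α Ψ) (B : ℝ) :
    {τ : ℝ | |τ| ≤ B ∧ ∃ x : ℝ, 0 < x ∧ Ψ (dir τ * x) = 0}.Finite := by
  -- the zeros in a compact rectangle
  set R : Set ℂ := (Icc (0 : ℝ) 1) ×ℂ (Icc (-B) B) with hR
  have hRc : IsCompact R := isCompact_Icc.reProdIm isCompact_Icc
  set Z : Set ℂ := {w | w ∈ R ∧ Ψ w = 0} with hZ
  have hG : AnalyticOnNhd ℂ Ψ univ := H.ent.differentiableOn.analyticOnNhd isOpen_univ
  have hZf : Z.Finite := by
    by_contra hinf
    obtain ⟨z, -, hz⟩ := Set.Infinite.exists_accPt_of_subset_isCompact hinf hRc (fun w hw => hw.1)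
    rw [accPt_iff_frequently_nhdsNE] at hz
    have h1 : ∃ᶠ w in 𝓝[≠] z, Ψ w = 0 := hz.mono fun w hw => hw.2
    have h2 := hG.eqOn_zero_of_preconnected_of_frequently_eq_zero isPreconnected_univ (mem_univ z) h1
    have h3 : Ψ 3 = 0 := h2 (mem_univ 3)
    exact ne_zero E H (w := 3) (by norm_num) h3
  refine (hZf.image (fun w : ℂ => w.im / w.re)).subset ?_
  rintro τ ⟨hτ, x, hx, hz⟩
  have hre : (dir τ * x).re = x := dir_mul_real_re τ x
  have him : (dir τ * x).im = τ * x := by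
    rw [Complex.mul_im]; simp
  have hx1 : x ≤ 1 := by
    by_contra hc
    push Not at hc
    exact ne_zero E H (w := dir τ * x) (by rw [hre]; linarith) hz
  refine ⟨dir τ * x, ⟨?_, hz⟩, ?_⟩
  · rw [hR, Complex.mem_reProdIm, hre, him]
    refine ⟨⟨hx.le, hx1⟩, ?_⟩
    have h1 := abs_le.1 hτ
    have hB : 0 ≤ B := (abs_nonneg _).trans hτ
    constructor <;> nlinarith
  · simp only
    rw [hre, him]
    field_simp

/-- the order of an entire continuation is finite at every point -/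
theorem order_finite (H : CP N α Ψ) (z : ℂ) : ∃ m : ℕ, analyticOrderAt Ψ z = m := by
  have h1 : analyticOrderAt Ψ z ≠ ⊤ := by
    intro htop
    rw [analyticOrderAt_eq_top] at htop
    have hG : AnalyticOnNhd ℂ Ψ univ := H.ent.differentiableOn.analyticOnNhd isOpen_univ
    have h2 := hG.eqOn_zero_of_preconnected_of_eventuallyEq_zero isPreconnected_univ
      (mem_univ z) htop
    exact ne_zero E H (w := 3) (by norm_num) (h2 (mem_univ 3))
  exact ⟨_, (ENat.natCast_toNat h1).symm⟩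

end Pool.Agent.Y697.DL
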