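import Pool.Agent.Y697.DL.Gen
import Pool.Agent.TH942.Ner

/-! Elliptic curves over number fields: the directional sums over the places and the number of points of
bounded height. -/

set_option autoImplicit false

namespace Pool.Agent.Y697.DL

open MeasureTheory Filter Topology Set NumberField IsDedekindDomain
open Pool.Agent.W189.ML (grow)
open Pool.Agent.W524.RY (dir dir_mul_real_re)
open Pool.Agent.TH942.ES
open Pool.Agent.TH942 (SPt sht neron_growth)
open Pool.Agent.H921R2.TatePole (nm two_le_nm)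

variable {K : Type} [Field K] [NumberField K] {a b : 𝓞 K} {F : ℂ → ℂ}

/-- the norms -/
noncomputable def NV (a b : 𝓞 K) (v : {v : HeightOneSpectrum (𝓞 K) // GoodV a b v}) : ℕ := nm v.1

theorem csys (a b : 𝓞 K) : Sys (NV a b) (alV a b) := curve_sys a b

/-- the weight -/
noncomputable def wt (τ u : ℝ) : ℝ := ((Complex.Gamma (1 + (1 + τ * Complex.I) * u))⁻¹).re

/-- the sum over the places -/
noncomputable def lsum (a b : 𝓞 K) (τ X : ℝ) : ℝ :=
  ∑' v : {v : HeightOneSpectrum (𝓞 K) // GoodV a b v},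
    wt τ (Real.log (nm v.1) / Real.log X) * Real.log (((ptsV a b v.1 + 1 : ℕ) : ℝ) / nm v.1)

theorem term_re (τ X : ℝ) (v : {v : HeightOneSpectrum (𝓞 K) // GoodV a b v}) :
    ((cv (NV a b) (alV a b) v : ℂ) *
      (Complex.Gamma (1 + dir τ * (Real.log (NV a b v) / (Real.log X : ℝ))))⁻¹).re =
    wt τ (Real.log (nm v.1) / Real.log X) * Real.log (((ptsV a b v.1 + 1 : ℕ) : ℝ) / nm v.1) := by
  have h1 : cv (NV a b) (alV a b) v = Real.log (((ptsV a b v.1 : ℝ) + 1) / nm v.1) := curve_cv v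
  rw [Complex.re_ofReal_mul, h1]
  unfold wt dir NV
  push_cast
  ring

theorem lsum_summable (τ : ℝ) {X : ℝ} (hX : 1 < X) :
    Summable fun v : {v : HeightOneSpectrum (𝓞 K) // GoodV a b v} =>
      |wt τ (Real.log (nm v.1) / Real.log X) *
        Real.log (((ptsV a b v.1 + 1 : ℕ) : ℝ) / nm v.1)| := by
  have h1 := cmean_summable (csys a b) τ (Real.log_pos hX)
  refine Summable.of_nonneg_of_le (fun v => abs_nonneg _) (fun v => ?_) h1
  rw [← term_re]
  exact Complex.abs_re_le_norm _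

theorem lsum_eq (τ : ℝ) {X : ℝ} (hX : 1 < X) :
    lsum a b τ X = (cmean (NV a b) (alV a b) τ (Real.log X)).re := by
  have h1 := (cmean_summable (csys a b) τ (Real.log_pos hX)).of_norm
  unfold cmean lsum
  rw [Complex.re_tsum h1]
  exact tsum_congr fun v => (term_re τ X v).symm

/-- the incomplete `L`-series -/
def IsL (a b : 𝓞 K) (F : ℂ → ℂ) : Prop :=
  Differentiable ℂ F ∧ ∀ s : ℂ, 3 / 2 < s.re →
    HasProd (fun v : {v : HeightOneSpectrum (𝓞 K) // GoodV a b v} => efV a b v.1 s) (F s)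

theorem IsL.cp (hF : IsL a b F) : CP (NV a b) (alV a b) (fun w => F (1 + w)) where
  ent := hF.1.comp (by fun_prop)
  prod := fun w hw => by
    have h1 := hF.2 (1 + w) (by rw [Complex.add_re, Complex.one_re]; linarith)
    have h2 : (fun v : {v : HeightOneSpectrum (𝓞 K) // GoodV a b v} => efV a b v.1 (1 + w)) =
        fun v => ∏ i, (1 - zv (NV a b) (alV a b) v i * xv (NV a b) v w)⁻¹ := by
      funext v
      exact (curve_factor v w).symm
    rwa [h2] at h1

/-- a zero on the ray -/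
def Blk (F : ℂ → ℂ) (τ : ℝ) : Prop :=
  ∃ x : ℝ, 0 < x ∧ F (1 + (1 + τ * Complex.I) * x) = 0

theorem ord_shift (F : ℂ → ℂ) (z : ℂ) :
    analyticOrderAt (fun w => F (1 + w)) z = analyticOrderAt F (1 + z) := by
  have hd : deriv (fun w : ℂ => 1 + w) z = 1 := by simp
  exact analyticOrderAt_comp_of_deriv_ne_zero (f := F) (g := fun w : ℂ => 1 + w) (z₀ := z)
    (by fun_prop) (by rw [hd]; exact one_ne_zero)

theorem loglog_tendsto : Tendsto (fun X : ℝ => Real.log (Real.log X)) atTop atTop :=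
  Real.tendsto_log_atTop.comp Real.tendsto_log_atTop

theorem order_exists (hF : IsL a b F) (z : ℂ) : ∃ r : ℕ, analyticOrderAt F z = r := by
  obtain ⟨r, hr⟩ := order_finite (csys a b) hF.cp (z - 1)
  rw [ord_shift F, add_sub_cancel] at hr
  exact ⟨r, hr⟩

theorem free_real (hF : IsL a b F) {r : ℕ} (hr : analyticOrderAt F 1 = r) {τ : ℝ}
    (hτ : ¬ Blk F τ) :
    ∃ M : ℝ, ∀ᶠ X : ℝ in atTop, |lsum a b τ X - r * Real.log (Real.log X)| ≤ M := by
  obtain ⟨M, hM⟩ := free (csys a b) hF.cp τ (m := r) (by rw [ord_shift F, add_zero]; exact hr)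
    (fun x hx h => hτ ⟨x, hx, h⟩)
  refine ⟨M, ?_⟩
  filter_upwards [hM, eventually_gt_atTop 1] with X h1 h2
  rw [lsum_eq τ h2]
  refine le_trans (le_of_eq ?_) ((Complex.abs_re_le_norm _).trans h1)
  congr 1
  rw [Complex.sub_re]
  congr 1
  rw [← Complex.ofReal_natCast, ← Complex.ofReal_mul, Complex.ofReal_re]

theorem blocked_real (hF : IsL a b F) {τ : ℝ} (hτ : Blk F τ) :
    ∃ (x : ℝ) (m : ℕ), 0 < x ∧ x ≤ 1 / 2 ∧ 0 < m ∧
      analyticOrderAt F (1 + (1 + τ * Complex.I) * x) = m ∧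
      (∀ y : ℝ, x < y → F (1 + (1 + τ * Complex.I) * y) ≠ 0) ∧
      Tendsto (fun X : ℝ => lsum a b τ X / grow (x * Real.log X)) atTop (𝓝 m) ∧
      ∀ c < x, ∀ᶠ X : ℝ in atTop, Real.exp (X ^ c) ≤ lsum a b τ X := by
  obtain ⟨x₀, h0, h1, hnz, hz⟩ := exists_last (csys a b) hF.cp τ
  obtain ⟨m, hm⟩ := order_finite (csys a b) hF.cp (dir τ * x₀)
  have hx0 : 0 < x₀ := by
    obtain ⟨y, hy, hyz⟩ := hτ
    by_contra hc
    exact hnz y (by linarith) hyz
  have hz' : F (1 + dir τ * x₀) = 0 := by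
    rcases hz with h | h
    · exact absurd h hx0.ne'
    · exact h
  obtain ⟨h2, h3⟩ := blocked (csys a b) hF.cp τ hx0 (by linarith) hm hz' hnz
  rw [ord_shift F] at hm
  have hm0 : 0 < m := by
    rw [Nat.pos_iff_ne_zero]
    intro h
    rw [h] at hm
    have : AnalyticAt ℂ F (1 + dir τ * x₀) := hF.1.analyticAt _
    exact (this.analyticOrderAt_eq_zero.1 (by simpa using hm)) hz'
  refine ⟨x₀, m, hx0, h1, hm0, hm, hnz, ?_, ?_⟩
  · have h4 := (Complex.continuous_re.tendsto _).comp h2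
    rw [Complex.natCast_re] at h4
    refine h4.congr' ?_
    filter_upwards [eventually_gt_atTop 1] with X hX
    simp only [Function.comp_apply]
    rw [lsum_eq τ hX, Complex.div_ofReal_re]
  · intro c hc
    filter_upwards [h3 c hc, eventually_gt_atTop 1] with X h4 h5
    rw [lsum_eq τ h5]
    exact h4

theorem blk_finite (hF : IsL a b F) (B : ℝ) : {τ : ℝ | |τ| ≤ B ∧ Blk F τ}.Finite :=
  blocked_finite (csys a b) hF.cp B

theorem exists_free (hF : IsL a b F) : ∃ τ : ℝ, ¬ Blk F τ := by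
  by_contra hc
  push Not at hc
  have h1 := blk_finite hF 1
  have h2 : {τ : ℝ | |τ| ≤ 1 ∧ Blk F τ} = Set.Icc (-1) 1 := by
    ext τ
    simp only [Set.mem_ofPred_eq, Set.mem_Icc, ← abs_le]
    exact ⟨fun h => h.1, fun h => ⟨h, hc τ⟩⟩
  rw [h2] at h1
  exact (Set.Icc_infinite (by norm_num : (-1 : ℝ) < 1)) h1

/-- the number of points of height at most `B` -/
noncomputable def cnt (a b : 𝓞 K) (B : ℝ) : ℕ := by
  classical
  exact Nat.card {P : SPt (a : K) (b : K) // sht P ≤ B}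

/-- the rank -/
noncomputable def rk (a b : 𝓞 K) : ℕ := by
  classical
  exact Module.finrank ℤ (SPt (a : K) (b : K))

theorem cnt_lim (hD : 4 * a ^ 3 + 27 * b ^ 2 ≠ 0) : ∃ κ : ℝ, 0 < κ ∧
    Tendsto (fun B : ℝ => (cnt a b B : ℝ) / B ^ ((rk a b : ℝ) / 2)) atTop (𝓝 κ) := by
  classical
  have hD' : 4 * (a : K) ^ 3 + 27 * (b : K) ^ 2 ≠ 0 := by
    intro h
    apply hD
    apply RingOfIntegers.coe_injective
    rw [map_zero, map_add, map_mul, map_mul, map_pow, map_pow, map_ofNat, map_ofNat]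
    exact h
  obtain ⟨κ, h1, h2⟩ := neron_growth (a := (a : K)) (b := (b : K)) hD'
  refine ⟨κ, h1, ?_⟩
  unfold cnt rk
  convert h2

/-- the number of points of height at most `(log X)²` -/
theorem cnt_log (hD : 4 * a ^ 3 + 27 * b ^ 2 ≠ 0) : ∃ c C : ℝ, 0 < c ∧ 0 < C ∧
    ∀ᶠ X : ℝ in atTop, c * Real.log X ^ (rk a b) ≤ (cnt a b (Real.log X ^ 2) : ℝ) ∧
      (cnt a b (Real.log X ^ 2) : ℝ) ≤ C * Real.log X ^ (rk a b) := by
  obtain ⟨κ, hκ, h⟩ := cnt_lim hD
  refine ⟨κ / 2, 2 * κ, by positivity, by positivity, ?_⟩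
  have h1 : ∀ᶠ B : ℝ in atTop, κ / 2 < (cnt a b B : ℝ) / B ^ ((rk a b : ℝ) / 2) ∧
      (cnt a b B : ℝ) / B ^ ((rk a b : ℝ) / 2) < 2 * κ :=
    (h.eventually (lt_mem_nhds (by linarith))).and (h.eventually (gt_mem_nhds (by linarith)))
  have h2 : Tendsto (fun X : ℝ => Real.log X ^ 2) atTop atTop :=
    (tendsto_pow_atTop (by norm_num)).comp Real.tendsto_log_atTop
  filter_upwards [h2.eventually h1, Real.tendsto_log_atTop.eventually (eventually_gt_atTop 0)]
    with X h3 h4
  have h5 : (Real.log X ^ 2) ^ ((rk a b : ℝ) / 2) = Real.log X ^ (rk a b) := by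
    rw [← Real.rpow_natCast (Real.log X) 2, ← Real.rpow_mul h4.le, ← Real.rpow_natCast]
    congr 1
    push_cast
    ring
  rw [h5] at h3
  have h6 : 0 < Real.log X ^ (rk a b) := by positivity
  obtain ⟨h7, h8⟩ := h3
  rw [lt_div_iff₀ h6] at h7
  rw [div_lt_iff₀ h6] at h8
  exact ⟨h7.le, h8.le⟩

/-- comparison of two powers of `log X` -/
theorem pow_le_iff {f g : ℝ → ℝ} {r m : ℕ} {c C c' C' : ℝ} (hc : 0 < c) (hc' : 0 < c')
    (hf : ∀ᶠ X : ℝ in atTop, c * Real.log X ^ r ≤ f X ∧ f X ≤ C * Real.log X ^ r)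
    (hg : ∀ᶠ X : ℝ in atTop, c' * Real.log X ^ m ≤ g X ∧ g X ≤ C' * Real.log X ^ m) :
    r ≤ m ↔ ∃ D : ℝ, 0 < D ∧ ∀ᶠ X : ℝ in atTop, f X ≤ D * g X := by
  constructor
  · intro h
    refine ⟨(|C| + 1) / c', by positivity, ?_⟩
    filter_upwards [hf, hg, Real.tendsto_log_atTop.eventually (eventually_ge_atTop 1)] with X h1 h2 h3
    have h0 : 0 < Real.log X ^ r := by positivity
    have h4 : Real.log X ^ r ≤ Real.log X ^ m := pow_le_pow_right₀ h3 h
    have h5 : Real.log X ^ m ≤ g X / c' := by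
      rw [le_div_iff₀ hc', mul_comm]
      exact h2.1
    calc f X ≤ C * Real.log X ^ r := h1.2
      _ ≤ (|C| + 1) * Real.log X ^ r := by
        have := le_abs_self C
        nlinarith
      _ ≤ (|C| + 1) * Real.log X ^ m := by gcongr
      _ ≤ (|C| + 1) * (g X / c') := by gcongr
      _ = _ := by ring
  · rintro ⟨D, hD, h⟩
    by_contra hcon
    push Not at hcon
    have h1 : ∀ᶠ X : ℝ in atTop, D * C' / c < Real.log X :=
      Real.tendsto_log_atTop.eventually (eventually_gt_atTop _)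
    obtain ⟨X, h2, h3, h4, h5, h6⟩ := (h.and (h1.and (hf.and (hg.and
      (Real.tendsto_log_atTop.eventually (eventually_ge_atTop 1)))))).exists
    have h7 : 0 < Real.log X ^ m := by positivity
    have h8 : Real.log X * Real.log X ^ m ≤ Real.log X ^ r := by
      rw [← pow_succ']
      exact pow_le_pow_right₀ h6 hcon
    have h9 : c * (Real.log X * Real.log X ^ m) ≤ D * (C' * Real.log X ^ m) :=
      calc c * (Real.log X * Real.log X ^ m) ≤ c * Real.log X ^ r := by gcongr
        _ ≤ f X := h4.1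
        _ ≤ D * g X := h2
        _ ≤ _ := by gcongr; exact h5.2
    have h10 : c * Real.log X ≤ D * C' := by
      have : (c * Real.log X) * Real.log X ^ m ≤ (D * C') * Real.log X ^ m := by linarith
      exact le_of_mul_le_mul_right this h7
    rw [div_lt_iff₀ hc] at h3
    linarith

/-- the size of the local product in a free direction -/
theorem exp_free (hF : IsL a b F) {r : ℕ} (hr : analyticOrderAt F 1 = r) {τ : ℝ}
    (hτ : ¬ Blk F τ) : ∃ c C : ℝ, 0 < c ∧ 0 < C ∧
    ∀ᶠ X : ℝ in atTop, c * Real.log X ^ r ≤ Real.exp (lsum a b τ X) ∧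
      Real.exp (lsum a b τ X) ≤ C * Real.log X ^ r := by
  obtain ⟨M, hM⟩ := free_real hF hr hτ
  refine ⟨Real.exp (-M), Real.exp M, Real.exp_pos _, Real.exp_pos _, ?_⟩
  filter_upwards [hM, Real.tendsto_log_atTop.eventually (eventually_gt_atTop 0)] with X h1 h2
  have h3 : Real.log X ^ r = Real.exp (r * Real.log (Real.log X)) := by
    rw [Real.exp_nat_mul, Real.exp_log h2]
  rw [h3, ← Real.exp_add, ← Real.exp_add, Real.exp_le_exp, Real.exp_le_exp]
  have h4 := abs_le.1 h1
  constructor <;> linarith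

theorem rank_le_iff (hD : 4 * a ^ 3 + 27 * b ^ 2 ≠ 0) (hF : IsL a b F) {r : ℕ}
    (hr : analyticOrderAt F 1 = r) {τ : ℝ} (hτ : ¬ Blk F τ) :
    rk a b ≤ r ↔ ∃ C : ℝ, 0 < C ∧ ∀ᶠ X : ℝ in atTop,
      (cnt a b (Real.log X ^ 2) : ℝ) ≤ C * Real.exp (lsum a b τ X) := by
  obtain ⟨c, C, h1, h2, h3⟩ := cnt_log hD
  obtain ⟨c', C', h4, h5, h6⟩ := exp_free hF hr hτ
  exact pow_le_iff h1 h4 h3 h6

theorem le_rank_iff (hD : 4 * a ^ 3 + 27 * b ^ 2 ≠ 0) (hF : IsL a b F) {r : ℕ}
    (hr : analyticOrderAt F 1 = r) {τ : ℝ} (hτ : ¬ Blk F τ) :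
    r ≤ rk a b ↔ ∃ C : ℝ, 0 < C ∧ ∀ᶠ X : ℝ in atTop,
      Real.exp (lsum a b τ X) ≤ C * (cnt a b (Real.log X ^ 2) : ℝ) := by
  obtain ⟨c, C, h1, h2, h3⟩ := cnt_log hD
  obtain ⟨c', C', h4, h5, h6⟩ := exp_free hF hr hτ
  exact pow_le_iff h4 h1 h6 h3

/-- the logarithm of the number of points -/
theorem log_cnt (hD : 4 * a ^ 3 + 27 * b ^ 2 ≠ 0) :
    Tendsto (fun X : ℝ => Real.log (cnt a b (Real.log X ^ 2)) / Real.log (Real.log X)) atTop
      (𝓝 (rk a b)) := by
  obtain ⟨c, C, hc, hC, h⟩ := cnt_log hD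
  have h1 : ∀ᶠ X : ℝ in atTop,
      |Real.log (cnt a b (Real.log X ^ 2)) - rk a b * Real.log (Real.log X)| ≤
        |Real.log c| + |Real.log C| := by
    filter_upwards [h, Real.tendsto_log_atTop.eventually (eventually_gt_atTop 0)] with X h2 h3
    have h4 : 0 < Real.log X ^ rk a b := by positivity
    have h5 := Real.log_le_log (by positivity) h2.1
    have h6 := Real.log_le_log (lt_of_lt_of_le (by positivity) h2.1) h2.2
    rw [Real.log_mul hc.ne' h4.ne', Real.log_pow] at h5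
    rw [Real.log_mul hC.ne' h4.ne', Real.log_pow] at h6
    have h7 := neg_abs_le (Real.log c)
    have h8 := le_abs_self (Real.log C)
    have h9 := abs_nonneg (Real.log c)
    have h10 := abs_nonneg (Real.log C)
    rw [abs_le]
    constructor <;> linarith
  rw [tendsto_iff_norm_sub_tendsto_zero]
  have h2 : Tendsto (fun X : ℝ => (|Real.log c| + |Real.log C|) / Real.log (Real.log X)) atTop
      (𝓝 0) := tendsto_const_nhds.div_atTop loglog_tendsto
  refine squeeze_zero' (Eventually.of_forall fun X => norm_nonneg _) ?_ h2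
  filter_upwards [h1, loglog_tendsto.eventually (eventually_gt_atTop 0)] with X h3 h4
  have h5 : Real.log (cnt a b (Real.log X ^ 2)) / Real.log (Real.log X) - rk a b =
      (Real.log (cnt a b (Real.log X ^ 2)) - rk a b * Real.log (Real.log X)) /
        Real.log (Real.log X) := by
    field_simp
  rw [h5, norm_div, Real.norm_eq_abs, Real.norm_eq_abs, abs_of_pos h4]
  exact div_le_div_of_nonneg_right h3 h4.le

theorem quot_free (hF : IsL a b F) {r : ℕ} (hr : analyticOrderAt F 1 = r) {τ : ℝ}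
    (hτ : ¬ Blk F τ) :
    Tendsto (fun X : ℝ => lsum a b τ X / Real.log (Real.log X)) atTop (𝓝 r) := by
  obtain ⟨M, hM⟩ := free_real hF hr hτ
  rw [tendsto_iff_norm_sub_tendsto_zero]
  have h2 : Tendsto (fun X : ℝ => M / Real.log (Real.log X)) atTop (𝓝 0) :=
    tendsto_const_nhds.div_atTop loglog_tendsto
  refine squeeze_zero' (Eventually.of_forall fun X => norm_nonneg _) ?_ h2
  filter_upwards [hM, loglog_tendsto.eventually (eventually_gt_atTop 0)] with X h3 h4
  have h5 : lsum a b τ X / Real.log (Real.log X) - r =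
      (lsum a b τ X - r * Real.log (Real.log X)) / Real.log (Real.log X) := by
    field_simp
  rw [h5, norm_div, Real.norm_eq_abs, Real.norm_eq_abs, abs_of_pos h4]
  exact div_le_div_of_nonneg_right h3 h4.le

theorem quot_blocked (hF : IsL a b F) {τ : ℝ} (hτ : Blk F τ) :
    Tendsto (fun X : ℝ => lsum a b τ X / Real.log (Real.log X)) atTop atTop := by
  obtain ⟨x, m, hx, -, -, -, -, -, h⟩ := blocked_real hF hτ
  have hc : 0 < x / 2 := half_pos hx
  have h6 : Tendsto (fun X : ℝ => X ^ (x / 2) / Real.log X) atTop atTop := by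
    have h7 : (fun X : ℝ => Real.log X) =o[atTop] fun X => X ^ (x / 2) := isLittleO_log_rpow_atTop hc
    have h8 : Tendsto (fun X : ℝ => Real.log X / X ^ (x / 2)) atTop (𝓝[>] 0) := by
      rw [tendsto_nhdsWithin_iff]
      refine ⟨h7.tendsto_div_nhds_zero, ?_⟩
      filter_upwards [eventually_gt_atTop 1] with X hX
      have := Real.log_pos hX
      have : (0 : ℝ) < X ^ (x / 2) := Real.rpow_pos_of_pos (by linarith) _
      show (0 : ℝ) < _
      positivity
    have h9 := h8.inv_tendsto_nhdsGT_zero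
    refine h9.congr fun X => ?_
    rw [Pi.inv_apply, inv_div]
  refine tendsto_atTop_mono' _ ?_ h6
  filter_upwards [h (x / 2) (by linarith), eventually_ge_atTop (3 : ℝ),
    loglog_tendsto.eventually (eventually_gt_atTop 0)] with X h10 h11 h12
  have h13 : 0 < Real.log X := Real.log_pos (by linarith)
  have h14 : Real.log (Real.log X) ≤ Real.log X :=
    (Real.log_le_sub_one_of_pos h13).trans (by linarith)
  have h15 : X ^ (x / 2) ≤ lsum a b τ X := by
    have := Real.add_one_le_exp (X ^ (x / 2))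
    linarith
  have h16 : 0 ≤ X ^ (x / 2) := Real.rpow_nonneg (by linarith) _
  calc X ^ (x / 2) / Real.log X ≤ X ^ (x / 2) / Real.log (Real.log X) := by gcongr
    _ ≤ _ := by gcongr

/-- the equivalence -/
theorem tfae (hD : 4 * a ^ 3 + 27 * b ^ 2 ≠ 0) (hF : IsL a b F) :
    List.TFAE [analyticOrderAt F 1 = rk a b,
      ∃ (τ : ℝ) (X : ℕ → ℝ), Tendsto X atTop atTop ∧
        Tendsto (fun n => (Real.log (cnt a b (Real.log (X n) ^ 2)) - lsum a b τ (X n)) /
          Real.log (Real.log (X n))) atTop (𝓝 0),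
      ∀ τ : ℝ, ¬ Blk F τ → ∃ c C : ℝ, 0 < c ∧ 0 < C ∧ ∀ᶠ X : ℝ in atTop,
        c * Real.exp (lsum a b τ X) ≤ (cnt a b (Real.log X ^ 2) : ℝ) ∧
        (cnt a b (Real.log X ^ 2) : ℝ) ≤ C * Real.exp (lsum a b τ X)] := by
  obtain ⟨r, hr⟩ := order_exists hF 1
  have hcnt := log_cnt hD
  tfae_have 1 → 3 := by
    intro h τ hτ
    have h1 : r = rk a b := by
      rw [hr] at h
      exact_mod_cast h
    obtain ⟨C, hC, h2⟩ := (rank_le_iff hD hF hr hτ).1 h1.ge
    obtain ⟨C', hC', h3⟩ := (le_rank_iff hD hF hr hτ).1 h1.le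
    refine ⟨C'⁻¹, C, by positivity, hC, ?_⟩
    filter_upwards [h2, h3] with X h4 h5
    refine ⟨?_, h4⟩
    rw [inv_mul_le_iff₀ hC']
    exact h5
  tfae_have 3 → 2 := by
    intro h
    obtain ⟨τ, hτ⟩ := exists_free hF
    obtain ⟨c, C, hc, hC, h1⟩ := h τ hτ
    refine ⟨τ, fun n => n, tendsto_natCast_atTop_atTop, ?_⟩
    have h2 : Tendsto (fun X : ℝ => (Real.log (cnt a b (Real.log X ^ 2)) - lsum a b τ X) /
        Real.log (Real.log X)) atTop (𝓝 0) := by
      have h3 : Tendsto (fun X : ℝ => (|Real.log c| + |Real.log C|) / Real.log (Real.log X)) atTop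
        (𝓝 0) := tendsto_const_nhds.div_atTop loglog_tendsto
      rw [tendsto_iff_norm_sub_tendsto_zero]
      refine squeeze_zero' (Eventually.of_forall fun X => norm_nonneg _) ?_ h3
      filter_upwards [h1, loglog_tendsto.eventually (eventually_gt_atTop 0)] with X h4 h5
      rw [sub_zero, norm_div, Real.norm_eq_abs, Real.norm_eq_abs, abs_of_pos h5]
      refine div_le_div_of_nonneg_right ?_ h5.le
      have e0 := Real.exp_pos (lsum a b τ X)
      have e1 := Real.log_le_log (by positivity) h4.1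
      have e2 := Real.log_le_log (lt_of_lt_of_le (by positivity) h4.1) h4.2
      rw [Real.log_mul hc.ne' e0.ne', Real.log_exp] at e1
      rw [Real.log_mul hC.ne' e0.ne', Real.log_exp] at e2
      have h7 := neg_abs_le (Real.log c)
      have h8 := le_abs_self (Real.log C)
      have h9 := abs_nonneg (Real.log c)
      have h10 := abs_nonneg (Real.log C)
      rw [abs_le]
      constructor <;> linarith
    exact h2.comp tendsto_natCast_atTop_atTop
  tfae_have 2 → 1 := by
    rintro ⟨τ, X, hX, h⟩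
    have h0 : Tendsto (fun n => lsum a b τ (X n) / Real.log (Real.log (X n))) atTop
        (𝓝 (rk a b)) := by
      have h1 := (hcnt.comp hX).sub h
      rw [sub_zero] at h1
      refine h1.congr fun n => ?_
      simp only [Function.comp_apply]
      ring
    by_cases hτ : Blk F τ
    · exact absurd h0 (not_tendsto_nhds_of_tendsto_atTop ((quot_blocked hF hτ).comp hX) _)
    · have h1 := tendsto_nhds_unique ((quot_free hF hr hτ).comp hX) h0
      rw [hr]
      have h2 : r = rk a b := by exact_mod_cast h1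
      rw [h2]
  tfae_finish

end Pool.Agent.Y697.DL
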